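import Mathlib
import Pool.Agent.H.MP_522602_lc.A

set_option autoImplicit false

namespace Pool.Agent.Results.MP_522602_lc.CHNo

open Cardinal Pool.Agent.H.MP_522602_lc

theorem result (h : (𝔠 : Cardinal.{0}) = ℵ₁) : ∃ U : Ultrafilter ℕ, Top U ∧ ¬ Dm U :=
  main h

end Pool.Agent.Results.MP_522602_lc.CHNo
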